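import Pool.Agent.Helper62.OP.Defs

/-!
# OP: block O13, from intervals to order-connected sets
-/

set_option autoImplicit false
open MeasureTheory Set Filter Topology
open Pool.Agent.Helper57.Zeta Pool.Agent.Helper57.LH Pool.Agent.Helper57.ED
open Pool.Agent.Helper93.UG (zc sp)
open Pool.Agent.Helper57.NS (cnt)
open Pool.Agent.Helper62.OP

namespace Pool.Agent.Helper90.OP

/-- The statement of O12 (`opt`). -/
def Opt (d : ℝ) : Prop := ∃ c C T₀ : ℝ, 0 < c ∧ 1 ≤ C ∧ ∀ T R L e : ℝ, T₀ ≤ T → C ≤ L → Rng d T R L →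
    d ≤ e → e ≤ 2 → ∀ (F : Fam R L) (A : ℝ), F.B ≤ L ^ c →
      ENNReal.ofReal ((L / R) ^ (-((1 + d) * e ^ 2)) * T) ≤ volume {t : ℝ | T ≤ t ∧ t ≤ 2 * T ∧ e < |St F T t - A|}

/-- the points from which a zero has height `x` -/
lemma bad_countable (T x : ℝ) : {t : ℝ | ∃ ρ : ℂ, Pool.Agent.Helper57.PC.IsNontrivialZero ρ ∧ (ρ.im - t) / sp T = x}.Countable ∨
    sp T = 0 := by
  by_cases hs : sp T = 0
  · exact Or.inr hs
  · left
    have h1 : {t : ℝ | ∃ ρ : ℂ, Pool.Agent.Helper57.PC.IsNontrivialZero ρ ∧ (ρ.im - t) / sp T = x} ⊆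
        Set.range fun ρ : ZS => (ρ : ℂ).im - x * sp T := by
      rintro t ⟨ρ, hρ, ht⟩
      refine ⟨⟨ρ, isNontrivialZero_iff.1 hρ⟩, ?_⟩
      rw [div_eq_iff hs] at ht
      simp only
      linarith
    exact (Set.countable_range _).mono h1

/-- two windows that differ only in points which are no heights -/
lemma cnt_congr {T t : ℝ} {V W : Set ℝ} (h : ∀ ρ : ℂ, Pool.Agent.Helper57.PC.IsNontrivialZero ρ →
    ((ρ.im - t) / sp T ∈ V ↔ (ρ.im - t) / sp T ∈ W)) : cnt T t V = cnt T t W := by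
  unfold cnt zc
  have h1 : {ρ : ℂ | Pool.Agent.Helper57.PC.IsNontrivialZero ρ ∧ ρ.im ∈ {u : ℝ | (u - t) / sp T ∈ V}} =
      {ρ : ℂ | Pool.Agent.Helper57.PC.IsNontrivialZero ρ ∧ ρ.im ∈ {u : ℝ | (u - t) / sp T ∈ W}} := by
    ext ρ
    simp only [Set.mem_ofPred_eq]
    exact ⟨fun h2 => ⟨h2.1, (h ρ h2.1).1 h2.2⟩, fun h2 => ⟨h2.1, (h ρ h2.1).2 h2.2⟩⟩
  rw [h1]

/-- O13 over O12: order-connected sets -/
theorem core_of {d : ℝ} (hd : 0 < d) (h : Opt d) : ∃ c C T₀ : ℝ, 0 < c ∧ 1 ≤ C ∧ ∀ T R L e : ℝ, T₀ ≤ T → C ≤ L →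
    Rng d T R L → d ≤ e → e ≤ 2 → ∀ (n : ℕ) (J : Fin n → Set ℝ) (v : Fin n → ℝ) (A : ℝ), (∀ i, (J i).OrdConnected) →
      (∀ i, ∀ x ∈ J i, R ≤ |x| ∧ |x| ≤ L) → ∑ i, |v i| ≤ L ^ c →
      ENNReal.ofReal ((L / R) ^ (-((1 + d) * e ^ 2)) * T) ≤
        volume {t : ℝ | T ≤ t ∧ t ≤ 2 * T ∧ e < |cnt T t (Icc (-R) R) + ∑ i, v i * cnt T t (J i) - A|} := by
  classical
  obtain ⟨c, C, T₀, hc, hC, H⟩ := h
  refine ⟨c / 2, max C (2 ^ (2 / c)), max T₀ 3, by positivity, hC.trans (le_max_left _ _),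
    fun T R L e hT hL hR he he2 n J v A hJ hJR hv => ?_⟩
  have hT0 : T₀ ≤ T := (le_max_left _ _).trans hT
  have hT3 : 3 ≤ T := (le_max_right _ _).trans hT
  have hL0 : C ≤ L := (le_max_left _ _).trans hL
  have hL1 : 1 ≤ L := hC.trans hL0
  have hLp : 0 < L := by linarith
  have hRp : 0 < R := (Real.rpow_pos_of_pos hLp d).trans_le hR.2.1
  have hRL : R ≤ L := by
    calc R ≤ L ^ (1 - d) := hR.2.2
      _ ≤ L ^ (1:ℝ) := Real.rpow_le_rpow_of_exponent_le hL1 (by linarith)
      _ = L := Real.rpow_one L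
  have hs : 0 < sp T := by
    unfold sp
    have := Real.log_pos (show 1 < T by linarith)
    have := Real.pi_pos
    positivity
  -- the intervals
  set a : Fin n → ℝ := fun i => if (J i).Nonempty then sInf (J i) else R with ha
  set b : Fin n → ℝ := fun i => if (J i).Nonempty then sSup (J i) else R with hb
  have hbb : ∀ i, BddBelow (J i) := fun i => ⟨-L, fun x hx => by
    have := (abs_le.1 (hJR i x hx).2).1
    exact this⟩
  have hba : ∀ i, BddAbove (J i) := fun i => ⟨L, fun x hx => (abs_le.1 (hJR i x hx).2).2⟩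
  -- one side
  have hside : ∀ i, (J i ⊆ Icc (-L) (-R)) ∨ (J i ⊆ Icc R L) := by
    intro i
    by_cases hpos : ∃ x ∈ J i, 0 < x
    · right
      obtain ⟨x, hx, hx0⟩ := hpos
      intro y hy
      have h1 := hJR i y hy
      rcases le_or_gt 0 y with h2 | h2
      · rw [abs_of_nonneg h2] at h1
        exact h1
      · exfalso
        have h3 := (hJ i).out hy hx (show (0:ℝ) ∈ Icc y x from ⟨h2.le, hx0.le⟩)
        have h4 := (hJR i 0 h3).1
        rw [abs_zero] at h4
        linarith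
    · left
      push Not at hpos
      intro y hy
      have h1 := hJR i y hy
      rw [abs_of_nonpos (hpos y hy)] at h1
      exact ⟨by linarith [h1.2], by linarith [h1.1]⟩
  let F : Fam R L :=
    { n := n
      a := a
      b := b
      c := v
      le := by
        intro i
        by_cases hne : (J i).Nonempty
        · simp only [ha, hb, if_pos hne]
          exact csInf_le_csSup hne (hbb i) (hba i)
        · simp only [ha, hb, if_neg hne]
          exact le_rfl
      out := by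
        intro i
        by_cases hne : (J i).Nonempty
        · simp only [ha, hb, if_pos hne]
          rcases hside i with h1 | h1
          · exact Or.inl ⟨le_csInf hne fun x hx => (h1 hx).1, csSup_le hne fun x hx => (h1 hx).2⟩
          · exact Or.inr ⟨le_csInf hne fun x hx => (h1 hx).1, csSup_le hne fun x hx => (h1 hx).2⟩
        · simp only [ha, hb, if_neg hne]
          exact Or.inr ⟨le_rfl, hRL⟩ }
  have hFB : F.B ≤ L ^ c := by
    have h1 : F.B = 1 + ∑ i, |v i| := rfl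
    have h2 : (2:ℝ) ≤ L ^ (c / 2) := by
      have h3 : (2:ℝ) ^ (2 / c) ≤ L := (le_max_right _ _).trans hL
      calc (2:ℝ) = ((2:ℝ) ^ (2 / c)) ^ (c / 2) := by
            rw [← Real.rpow_mul (by norm_num)]
            rw [show 2 / c * (c / 2) = 1 by field_simp, Real.rpow_one]
        _ ≤ L ^ (c / 2) := Real.rpow_le_rpow (by positivity) h3 (by positivity)
    have h3 : L ^ c = L ^ (c / 2) * L ^ (c / 2) := by
      rw [← Real.rpow_add hLp]
      congr 1
      ring
    rw [h1, h3]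
    nlinarith
  have h1 := H T R L e hT0 hL0 hR he he2 F A hFB
  -- the exceptional points
  set N : Set ℝ := ⋃ i : Fin n, ({t : ℝ | ∃ ρ : ℂ, Pool.Agent.Helper57.PC.IsNontrivialZero ρ ∧ (ρ.im - t) / sp T = a i} ∪
    {t : ℝ | ∃ ρ : ℂ, Pool.Agent.Helper57.PC.IsNontrivialZero ρ ∧ (ρ.im - t) / sp T = b i}) with hN
  have hNc : N.Countable := by
    refine countable_iUnion fun i => ?_
    exact ((bad_countable T (a i)).resolve_right hs.ne').union ((bad_countable T (b i)).resolve_right hs.ne')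
  have hN0 : volume N = 0 := hNc.measure_zero _
  -- outside of them the counts agree
  have hag : ∀ t, t ∉ N → ∀ i, cnt T t (J i) = cnt T t (Icc (a i) (b i)) := by
    intro t ht i
    refine cnt_congr fun ρ hρ => ?_
    have hxa : (ρ.im - t) / sp T ≠ a i := by
      intro hx
      exact ht (mem_iUnion.2 ⟨i, Or.inl ⟨ρ, hρ, hx⟩⟩)
    have hxb : (ρ.im - t) / sp T ≠ b i := by
      intro hx
      exact ht (mem_iUnion.2 ⟨i, Or.inr ⟨ρ, hρ, hx⟩⟩)
    set x := (ρ.im - t) / sp T
    by_cases hne : (J i).Nonempty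
    · simp only [ha, hb, if_pos hne] at hxa hxb ⊢
      constructor
      · intro hx
        exact ⟨csInf_le (hbb i) hx, le_csSup (hba i) hx⟩
      · intro hx
        obtain ⟨y, hy, hyx⟩ := exists_lt_of_csInf_lt hne (lt_of_le_of_ne hx.1 (Ne.symm hxa))
        obtain ⟨z, hz, hxz⟩ := exists_lt_of_lt_csSup hne (lt_of_le_of_ne hx.2 hxb)
        exact (hJ i).out hy hz ⟨hyx.le, hxz.le⟩
    · simp only [ha, hb, if_neg hne] at hxa hxb ⊢
      constructor
      · intro hx
        exact absurd ⟨x, hx⟩ hne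
      · intro hx
        exact absurd (le_antisymm hx.2 hx.1) hxa
  have hsub : {t : ℝ | T ≤ t ∧ t ≤ 2 * T ∧ e < |St F T t - A|} ⊆
      {t : ℝ | T ≤ t ∧ t ≤ 2 * T ∧ e < |cnt T t (Icc (-R) R) + ∑ i, v i * cnt T t (J i) - A|} ∪ N := by
    intro t ht
    by_cases htN : t ∈ N
    · exact Or.inr htN
    · left
      refine ⟨ht.1, ht.2.1, ?_⟩
      have h2 : St F T t = cnt T t (Icc (-R) R) + ∑ i, v i * cnt T t (J i) := by
        unfold St
        congr 1
        refine Finset.sum_congr rfl fun i _ => ?_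
        rw [hag t htN i]
      rw [← h2]
      exact ht.2.2
  refine h1.trans ((measure_mono hsub).trans ((measure_union_le _ _).trans ?_))
  rw [hN0, add_zero]

end Pool.Agent.Helper90.OP
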